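import Pool.Agent.Helper988.AC.Main
import Pool.Agent.Helper988.AC.Zero

set_option autoImplicit false
open Filter Topology

namespace Pool.Agent.Results.MP_ae3269_an.NonDivisible

section Defs

variable (A : Type) [NonUnitalNormedRing A] [NormedSpace ℂ A] [IsScalarTower ℂ A A]
  [SMulCommClass ℂ A A]

/-- Property (C): every homomorphism with commutative range from any Banach algebra into `A` is
continuous. -/
def PropC : Prop :=
  ∀ (B : Type) [NonUnitalNormedRing B] [NormedSpace ℂ B] [IsScalarTower ℂ B B]
    [SMulCommClass ℂ B B] [CompleteSpace B] (θ : B →ₙₐ[ℂ] A),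
    (∀ x y : B, θ x * θ y = θ y * θ x) → Continuous θ

/-- Every homomorphism from any Banach algebra into `A` is continuous. -/
def AllCont : Prop :=
  ∀ (B : Type) [NonUnitalNormedRing B] [NormedSpace ℂ B] [IsScalarTower ℂ B B]
    [SMulCommClass ℂ B B] [CompleteSpace B] (θ : B →ₙₐ[ℂ] A), Continuous θ

/-- `A` has no non-zero element of square zero. -/
def Reduced : Prop := ∀ a : A, a * a = 0 → a = 0

variable {A} in
/-- `x` is infinitely divisible by `a`: for every `n` it is a limit of elements
`a * (a * ( ... * (a * y)))` with `n` factors `a`, that is, it lies in the closure of `aⁿ A`. -/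
def InfDiv (a x : A) : Prop :=
  ∀ n : ℕ, x ∈ closure (Set.range (fun y : A => (fun z => a * z)^[n] y))

/-- There are finitely many (possibly no) characters of `A` such that, for every `a` in their common
kernel, `0` is the only element infinitely divisible by `a`. -/
def NonDivisible : Prop :=
  ∃ (m : ℕ) (χ : Fin m → (A →ₙₐ[ℂ] ℂ)), ∀ a : A, (∀ i, χ i a = 0) → ∀ x : A, InfDiv a x → x = 0

/-- There are finitely many (possibly no) characters of `A`, with common kernel `J`, and a sequence
of closed subspaces `A = I₀, I₁, I₂, ...` with intersection zero and `J Iₙ ⊆ Iₙ₊₁`. -/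
def Filtered : Prop :=
  ∃ (m : ℕ) (χ : Fin m → (A →ₙₐ[ℂ] ℂ)) (I : ℕ → Submodule ℂ A), I 0 = ⊤ ∧
    (∀ n, IsClosed (I n : Set A)) ∧
    (∀ a : A, (∀ i, χ i a = 0) → ∀ n, ∀ x ∈ I n, a * x ∈ I (n + 1)) ∧
    ∀ x : A, (∀ n, x ∈ I n) → x = 0

end Defs

/-- For a complex Banach algebra `A` which is non-divisible in the above sense, property (C), the
continuity of all homomorphisms from Banach algebras into `A`, and the absence of non-zero elements
of square zero are equivalent. Filtered Banach algebras (for instance Banach algebras of formal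
power series in non-commuting variables with continuous coefficients) are non-divisible. -/
theorem result :
    (∀ (A : Type) [NonUnitalNormedRing A] [NormedSpace ℂ A] [IsScalarTower ℂ A A]
      [SMulCommClass ℂ A A] [CompleteSpace A], NonDivisible A →
        (PropC A ↔ AllCont A) ∧ (AllCont A ↔ Reduced A)) ∧
    (∀ (A : Type) [NonUnitalNormedRing A] [NormedSpace ℂ A] [IsScalarTower ℂ A A]
      [SMulCommClass ℂ A A] [CompleteSpace A], Filtered A → NonDivisible A) := by
  constructor
  · intro A _ _ _ _ _ hA
    have h1 : PropC A → Reduced A := fun hC a ha => Helper988.AC.reduced_of_C hC a ha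
    have h2 : Reduced A → AllCont A := by
      intro hred B _ _ _ _ _ θ
      obtain ⟨m, χ, hχ⟩ := hA
      exact Helper988.AC.main_cont hred χ hχ θ
    have h3 : AllCont A → PropC A := fun h B _ _ _ _ _ θ _ => h B θ
    exact ⟨⟨fun h => h2 (h1 h), h3⟩, ⟨fun h => h1 (h3 h), h2⟩⟩
  · intro A _ _ _ _ _ hA
    obtain ⟨m, χ, I, h0, hcl, hmul, hint⟩ := hA
    refine ⟨m, χ, fun a ha x hx => hint x (fun n => ?_)⟩
    have hsub : Set.range (fun y : A => (fun z => a * z)^[n] y) ⊆ (I n : Set A) := by
      rintro v ⟨y, rfl⟩
      show (fun z => a * z)^[n] y ∈ I n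
      induction n with
      | zero => rw [h0]; trivial
      | succ n ih =>
        rw [Function.iterate_succ_apply']
        exact hmul a ha n _ ih
    exact closure_minimal hsub (hcl n) (hx n)

end Pool.Agent.Results.MP_ae3269_an.NonDivisible
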