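import Pool.Agent.Helper988.AC.Sub
import Pool.Agent.Helper988.AC.Zero

set_option autoImplicit false
open Filter Topology

namespace Pool.Agent.Results.MP_ae3269_an.ResiduallyFinite

section Defs

variable (A : Type) [NonUnitalNormedRing A] [NormedSpace ℂ A] [IsScalarTower ℂ A A]
  [SMulCommClass ℂ A A]

/-- Property (C): every homomorphism with commutative range from any Banach algebra into `A` is
continuous. -/
def PropC : Prop :=
  ∀ (B : Type) [NonUnitalNormedRing B] [NormedSpace ℂ B] [IsScalarTower ℂ B B]
    [SMulCommClass ℂ B B] [CompleteSpace B] (θ : B →ₙₐ[ℂ] A),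
    (∀ x y : B, θ x * θ y = θ y * θ x) → Continuous θ

/-- Every homomorphism from any Banach algebra into `A` is continuous. -/
def AllCont : Prop :=
  ∀ (B : Type) [NonUnitalNormedRing B] [NormedSpace ℂ B] [IsScalarTower ℂ B B]
    [SMulCommClass ℂ B B] [CompleteSpace B] (θ : B →ₙₐ[ℂ] A), Continuous θ

/-- `A` has no non-zero element of square zero. -/
def Reduced : Prop := ∀ a : A, a * a = 0 → a = 0

variable {A} in
/-- `K` is a closed two-sided ideal. -/
def IsClosedIdeal (K : Submodule ℂ A) : Prop :=
  IsClosed (K : Set A) ∧ (∀ a x : A, x ∈ K → a * x ∈ K) ∧ (∀ a x : A, x ∈ K → x * a ∈ K)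

variable {A} in
/-- The products of `n + 1` elements of `J`. -/
def Products (J : Submodule ℂ A) : ℕ → Set A
  | 0 => J
  | n + 1 => {x | ∃ a ∈ J, ∃ c ∈ Products J n, x = a * c}

/-- The closed powers of the closed ideals of finite codimension have zero intersection: for every
`y ≠ 0` there are a closed ideal `J` of finite codimension, a number `n` and a closed ideal `K`
that contains all products of `n + 1` elements of `J` but not `y`. -/
def PowersSeparate : Prop :=
  ∀ y : A, y ≠ 0 → ∃ (J K : Submodule ℂ A) (n : ℕ), IsClosedIdeal J ∧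
    FiniteDimensional ℂ (A ⧸ J) ∧ IsClosedIdeal K ∧ (∀ x ∈ Products J n, x ∈ K) ∧ y ∉ K

/-- The closed ideals of finite codimension have zero intersection. -/
def ResiduallyFinite : Prop :=
  ∀ y : A, y ≠ 0 → ∃ J : Submodule ℂ A, IsClosedIdeal J ∧ FiniteDimensional ℂ (A ⧸ J) ∧ y ∉ J

end Defs

lemma prod_eq {A : Type} [NonUnitalNormedRing A] [NormedSpace ℂ A] [IsScalarTower ℂ A A]
    [SMulCommClass ℂ A A] (J : Submodule ℂ A) (n : ℕ) :
    Helper988.AC.PowProd J n = Products J n := by
  induction n with
  | zero => rfl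
  | succ n ih =>
    show {x | ∃ a ∈ J, ∃ c ∈ Helper988.AC.PowProd J n, x = a * c} =
      {x | ∃ a ∈ J, ∃ c ∈ Products J n, x = a * c}
    rw [ih]

/-- If the closed powers of the closed ideals of finite codimension of the Banach algebra `A` have
zero intersection (in particular, if these ideals have zero intersection), then property (C), the
continuity of all homomorphisms from Banach algebras into `A`, and the absence of non-zero elements
of square zero are equivalent. -/
theorem result :
    (∀ (A : Type) [NonUnitalNormedRing A] [NormedSpace ℂ A] [IsScalarTower ℂ A A]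
      [SMulCommClass ℂ A A] [CompleteSpace A], PowersSeparate A →
        (PropC A ↔ AllCont A) ∧ (AllCont A ↔ Reduced A)) ∧
    (∀ (A : Type) [NonUnitalNormedRing A] [NormedSpace ℂ A] [IsScalarTower ℂ A A]
      [SMulCommClass ℂ A A], ResiduallyFinite A → PowersSeparate A) := by
  constructor
  · intro A _ _ _ _ _ hA
    have h1 : PropC A → Reduced A := fun hC a ha => Helper988.AC.reduced_of_C hC a ha
    have h2 : Reduced A → AllCont A := by
      intro hred B _ _ _ _ _ θ
      refine Helper988.AC.cofin_cont_sub θ ?_ ?_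
      · intro a ha hax
        have h3 : a * a * a = 0 := hax a ha
        have h4 : (a * a) * (a * a) = 0 := by
          rw [← mul_assoc (a * a) a a, h3, zero_mul]
        exact hred a (hred _ h4)
      · intro y hy
        obtain ⟨J, K, n, hJ, hfin, hK, hJK, hyK⟩ := hA y hy
        exact ⟨K, J, n, hK.1, hK.2.1, hK.2.2, hJ.1, hfin, hJ.2.1, hJ.2.2,
          fun x hx => hJK x (by rwa [prod_eq] at hx), hyK⟩
    have h3 : AllCont A → PropC A := fun h B _ _ _ _ _ θ _ => h B θ
    exact ⟨⟨fun h => h2 (h1 h), h3⟩, ⟨fun h => h1 (h3 h), h2⟩⟩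
  · intro A _ _ _ _ h y hy
    obtain ⟨J, hJ, hfin, hyJ⟩ := h y hy
    exact ⟨J, J, 0, hJ, hfin, hJ, fun x hx => hx, hyJ⟩

end Pool.Agent.Results.MP_ae3269_an.ResiduallyFinite
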